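import Pool.Agent.Lib.MP_176643_co.Step

/-! Sums of Legendre symbols of split polynomials, and sign patterns of shifted symbols. -/

namespace Pool.Agent.Lib.MP_176643_co

open Polynomial Finset

variable {p : ℕ} [Fact p.Prime]

theorem two_card_le (hl : 6 ≤ p.sqrt) {f : (ZMod p)[X]} (h0 : f.coeff 0 ≠ 0) {e : ZMod p}
    (he : Odd (f.rootMultiplicity e)) (hm1 : 1 ≤ f.natDegree) (hm : f.natDegree ≤ p.sqrt)
    (a : ZMod p) : 2 * #{x : ZMod p | f.eval x ^ (p / 2) = a} ≤ p + 11 * f.natDegree * p.sqrt := by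
  have h1 := Nat.sqrt_le p
  have h2 := Nat.lt_succ_sqrt p
  set l := p.sqrt
  set m := f.natDegree
  have h3 : 6 * l ≤ p := by nlinarith
  have hp : p = 2 * (p / 2) + 1 := by
    have := (Fact.out : p.Prime).eq_two_or_odd
    omega
  obtain ⟨d, hd, hd'⟩ : ∃ d, 2 * d + m < p ∧ p ≤ 2 * d + 2 + m := ⟨(p - m - 1) / 2, by omega⟩
  obtain ⟨J, hJ, hJ'⟩ : ∃ J, 2 * J + 2 ≤ l + 6 * m ∧ l + 6 * m ≤ 2 * J + 3 :=
    ⟨(l + 6 * m) / 2 - 1, by omega⟩
  have h4 := stepanov (d := d) (l := l) (J := J) hp h0 he hd (by omega) (by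
    have e1 : (l + 5 * m) * (d + 1) ≤ 2 * (J + 1) * (d + 1) :=
      Nat.mul_le_mul_right _ (by omega)
    have e2 : m * p ≤ m * (2 * d + 2 + l) := Nat.mul_le_mul_left _ (by omega)
    have e3 : l * l * m ≤ p * m := Nat.mul_le_mul_right _ h1
    have e4 : l * (2 * J + 2) ≤ l * (l + 6 * m) := Nat.mul_le_mul_left _ hJ
    have e5 : p * 1 ≤ p * m := Nat.mul_le_mul_left _ hm1
    have e6 : 6 * l * m ≤ p * m := Nat.mul_le_mul_right _ h3
    nlinarith) a
  refine Nat.le_of_mul_le_mul_right ?_ (show 0 < l by omega)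
  have e1 : p * (2 * J + 2) ≤ p * (l + 6 * m) := Nat.mul_le_mul_left _ hJ
  have e2 : 2 * (p / 2) * m ≤ p * m := Nat.mul_le_mul_right _ (by omega)
  have e3 : p * m ≤ l * (l + 3) * m := Nat.mul_le_mul_right _ (by nlinarith)
  have e4 : 6 * (l * m) ≤ l * (l * m) := Nat.mul_le_mul_right _ hl
  nlinarith

theorem sum_char_le (hl : 6 ≤ p.sqrt) {f : (ZMod p)[X]} (h0 : f.coeff 0 ≠ 0) {e : ZMod p}
    (he : Odd (f.rootMultiplicity e)) (hm1 : 1 ≤ f.natDegree) (hm : f.natDegree ≤ p.sqrt) :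
    |∑ x, quadraticChar (ZMod p) (f.eval x)| ≤ 12 * f.natDegree * p.sqrt := by
  have hf : f ≠ 0 := by rintro rfl; simp at h0
  have hp2 : ringChar (ZMod p) ≠ 2 := by
    rw [ZMod.ringChar_zmod_n]
    rintro rfl
    have := Nat.sqrt_le_self 2
    omega
  have h1 : #{x : ZMod p | f.eval x = 0} ≤ f.natDegree :=
    card_le_degree_of_subset_roots fun x hx => (mem_roots hf).2 (mem_filter.1 hx).2
  have key : ∀ σ : ℤ, σ = 1 ∨ σ = -1 →
      σ * ∑ x, quadraticChar (ZMod p) (f.eval x) ≤ 12 * f.natDegree * p.sqrt := fun σ hσ => by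
    have h2 : ∑ x, (1 + σ * quadraticChar (ZMod p) (f.eval x)) ≤
        ∑ x, (2 * (if f.eval x ^ (p / 2) = σ then 1 else 0) + if f.eval x = 0 then 1 else 0) := by
      refine sum_le_sum fun x _ => ?_
      have h3 := quadraticChar_eq_pow_of_char_ne_two' hp2 (f.eval x)
      rw [ZMod.card] at h3
      by_cases h4 : f.eval x = 0
      · rw [if_pos h4, h4, quadraticChar_zero]
        split_ifs <;> simp
      · rw [if_neg h4, ← h3]
        clear h3
        rcases quadraticChar_dichotomy h4 with h5 | h5 <;> rcases hσ with rfl | rfl <;> rw [h5]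
        · simp
        · split_ifs <;> simp
        · split_ifs <;> simp
        · simp
    rw [sum_add_distrib, sum_add_distrib, ← mul_sum, ← mul_sum, sum_boole, sum_boole] at h2
    simp only [sum_const, card_univ, ZMod.card, nsmul_eq_mul, mul_one] at h2
    have h3 := two_card_le hl h0 he hm1 hm σ
    zify at h1 h3 hl hm1
    nlinarith
  exact abs_le.2 ⟨by linarith [key (-1) (.inr rfl)], by linarith [key 1 (.inl rfl)]⟩

theorem sum_prod_le (hl : 6 ≤ p.sqrt) {S : Finset (ZMod p)} (hS : S.Nonempty) (hm : #S ≤ p.sqrt) :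
    |∑ y, ∏ x ∈ S, quadraticChar (ZMod p) (y + x)| ≤ 12 * #S * p.sqrt := by
  obtain ⟨c, hc⟩ : ∃ c, c ∉ S := by
    by_contra! h
    have h1 := card_le_card (fun x _ => h x : univ ⊆ S)
    have h2 := Nat.sqrt_le p
    rw [card_univ, ZMod.card] at h1
    nlinarith
  obtain ⟨e, he⟩ := hS
  have hd : (∏ x ∈ S, (X - C (c - x))).natDegree = #S := natDegree_finsetProd_X_sub_C_eq_card ..
  have := sum_char_le hl (f := ∏ x ∈ S, (X - C (c - x))) (e := c - e) (by
    rw [coeff_zero_eq_eval_zero, eval_prod]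
    exact prod_ne_zero_iff.2 fun x hx => by
      simpa [sub_eq_zero] using fun h : x = c => hc (h ▸ hx)) (by
    rw [← mul_prod_erase _ _ he, rootMultiplicity_mul (mul_ne_zero (X_sub_C_ne_zero _)
      (prod_ne_zero_iff.2 fun x _ => X_sub_C_ne_zero _)), rootMultiplicity_X_sub_C_self,
      rootMultiplicity_eq_zero]
    · exact odd_one
    · rw [IsRoot, eval_prod]
      exact prod_ne_zero_iff.2 fun x hx => by
        simpa [sub_eq_zero] using ne_of_mem_erase hx) (by rw [hd]; exact card_pos.2 ⟨e, he⟩)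
    (by rw [hd]; exact hm)
  rw [hd] at this
  rw [← Equiv.sum_comp (Equiv.subRight c)]
  convert this using 3 with y
  rw [eval_prod, map_prod]
  exact prod_congr rfl fun x _ => by simp [sub_add]

/-- the shifts with prescribed signs -/
def Lam (M : Finset (ZMod p)) (ε : ZMod p → ℤ) : Finset (ZMod p) :=
  {y | ∀ x ∈ M, quadraticChar (ZMod p) (y + x) = ε x}

theorem card_Lam (hl : 6 ≤ p.sqrt) {K : ℕ} (hK : K ≤ p.sqrt) (M : Finset (ZMod p)) (hM : #M ≤ K)
    (ε : ZMod p → ℤ) (hε : ∀ x, ε x = 1 ∨ ε x = -1) :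
    |(#(Lam M ε) : ℝ) - p / 2 ^ #M| ≤ 13 * K * p.sqrt := by
  set W : ZMod p → ℤ := fun y => ∏ x ∈ M, (1 + ε x * quadraticChar (ZMod p) (y + x)) with hW
  have h1 : |∑ y, W y - p| ≤ 2 ^ #M * (12 * K * p.sqrt) := by
    simp only [hW, prod_one_add, prod_mul_distrib]
    rw [sum_comm, ← add_sum_erase _ _ (empty_mem_powerset M)]
    simp only [prod_empty, mul_one, sum_const, card_univ, ZMod.card, nsmul_eq_mul,
      add_sub_cancel_left, ← mul_sum]
    refine (abs_sum_le_sum_abs _ _).trans ((sum_le_card_nsmul _ _ (12 * K * p.sqrt : ℤ)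
      fun S hS => ?_).trans ?_)
    · have h2 := (card_le_card (mem_powerset.1 (mem_of_mem_erase hS))).trans hM
      have h3 : |∏ x ∈ S, ε x| = 1 := by
        rw [abs_prod]
        exact prod_eq_one fun x _ => by rcases hε x with h | h <;> simp [h]
      rw [abs_mul, h3, one_mul]
      refine (sum_prod_le hl (nonempty_iff_ne_empty.2 (ne_of_mem_erase hS)) (h2.trans hK)).trans ?_
      gcongr
    · rw [nsmul_eq_mul]
      gcongr
      exact_mod_cast card_erase_le.trans (card_powerset M).le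
  have h2 : ∀ y x, 0 ≤ 1 + ε x * quadraticChar (ZMod p) (y + x) ∧
      1 + ε x * quadraticChar (ZMod p) (y + x) ≤ 2 := fun y x => by
    rcases quadraticChar_isQuadratic (ZMod p) (y + x) with h | h | h <;> rcases hε x with h' | h' <;>
      simp [h, h']
  have h3 : ∀ y ∈ Lam M ε, W y = 2 ^ #M := fun y hy =>
    prod_eq_pow_card fun x hx => by
      rw [(mem_filter.1 hy).2 x hx]
      rcases hε x with h | h <;> simp [h]
  have h4 : ∀ y, 0 ≤ W y ∧ W y ≤ 2 ^ #M := fun y =>
    ⟨prod_nonneg fun x _ => (h2 y x).1,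
      (prod_le_prod (fun x _ => (h2 y x).1) fun x _ => (h2 y x).2).trans_eq (prod_const _)⟩
  have h5 : 2 ^ #M * (#(Lam M ε) : ℤ) ≤ ∑ y, W y := by
    rw [mul_comm, ← nsmul_eq_mul, ← sum_const, ← sum_congr rfl h3]
    exact sum_le_sum_of_subset_of_nonneg (subset_univ _) fun y _ _ => (h4 y).1
  have h6 : ∑ y, W y ≤ 2 ^ #M * (#(Lam M ε) + K : ℤ) := by
    rw [← sum_subset (subset_univ (Lam M ε ∪ M.image Neg.neg))]
    · refine (sum_le_card_nsmul _ _ _ fun y _ => (h4 y).2).trans ?_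
      rw [nsmul_eq_mul, mul_comm]
      gcongr
      exact_mod_cast (card_union_le _ _).trans (Nat.add_le_add_left (card_image_le.trans hM) _)
    · intro y _ hy
      simp only [Lam, mem_union, mem_filter, mem_univ, true_and, mem_image, not_or, not_forall,
        not_exists, not_and] at hy
      obtain ⟨⟨x, hx, h7⟩, h8⟩ := hy
      refine prod_eq_zero hx ?_
      rcases quadraticChar_dichotomy (a := y + x) (fun h => h8 x hx (by linear_combination -h))
        with h | h <;> rcases hε x with h' | h' <;> simp_all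
  have h7 : (0 : ℝ) < 2 ^ #M := by positivity
  have h8 : (K : ℤ) ≤ K * p.sqrt := le_mul_of_one_le_right (by positivity) (by omega)
  have h9 := mul_le_mul_of_nonneg_left h8 (by positivity : (0 : ℤ) ≤ 2 ^ #M)
  have h10 : |2 ^ #M * (#(Lam M ε) : ℤ) - p| ≤ 2 ^ #M * (13 * K * p.sqrt) := by
    have h11 : (0 : ℤ) ≤ 2 ^ #M * K := by positivity
    rw [abs_le] at h1 ⊢
    constructor <;> nlinarith
  rw [sub_div' h7.ne', abs_div, abs_of_pos h7, div_le_iff₀' h7, mul_comm (#(Lam M ε) : ℝ)]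
  exact_mod_cast h10

end Pool.Agent.Lib.MP_176643_co
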