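import Pool.Agent.Lib.MP_176643_co.Reduce

/-! A symmetric line-free colouring with many colours in very high dimension. -/

namespace Pool.Agent.Lib.MP_176643_co

open Finset Combinatorics

/-- sums of functions each of which ignores one coordinate -/
def Dec {s : ℕ} {A B : Type} [AddCommMonoid A] (G : (Fin s → B) → A) : Prop :=
  ∃ S : Fin s → (Fin s → B) → A, (∀ i x x', (∀ j, j ≠ i → x j = x' j) → S i x = S i x') ∧
    ∀ x, G x = ∑ i, S i x

theorem dec_sum {s : ℕ} {A B J : Type} [AddCommMonoid A] [Fintype J] {G : J → (Fin s → B) → A}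
    (h : ∀ q, Dec (G q)) : Dec fun x => ∑ q, G q x := by
  choose S h1 h2 using h
  refine ⟨fun i x => ∑ q, S q i x, fun i x x' h => sum_congr rfl fun q _ => h1 q i x x' h,
    fun x => ?_⟩
  simp only [h2]
  exact sum_comm

theorem dec_prod {s : ℕ} {A B ι : Type} [CommRing A] [Fintype ι] (hι : Fintype.card ι < s)
    (c : ι → A) (u : Fin s → B → A) : Dec fun x : Fin s → B => ∏ m, (c m + ∑ i, u i (x i)) := by
  classical
  have h1 : ∀ f : ι → Option (Fin s), ∃ i, ∀ m, f m ≠ some i := fun f => by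
    obtain ⟨_, h2, h3⟩ := exists_mem_notMem_of_card_lt_card (s := univ.image f)
      (t := univ.image some) (by
        rw [card_image_of_injective _ (Option.some_injective _), card_univ, Fintype.card_fin]
        exact card_image_le.trans_lt hι)
    obtain ⟨i, -, rfl⟩ := mem_image.1 h2
    exact ⟨i, fun m hm => h3 (mem_image.2 ⟨m, mem_univ _, hm⟩)⟩
  choose miss hmiss using h1
  refine ⟨fun i x => ∑ f with miss f = i, ∏ m, (f m).elim (c m) fun j => u j (x j),
    fun i x x' h => sum_congr rfl fun f hf => prod_congr rfl fun m _ => ?_, fun x => ?_⟩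
  · have h2 := hmiss f m
    rw [(mem_filter.1 hf).2] at h2
    cases h3 : f m with
    | none => rfl
    | some j => exact congrArg (u j) (h j fun h4 => h2 (h3.trans (congrArg some h4)))
  · rw [sum_fiberwise, ← Fintype.piFinset_univ, ← prod_univ_sum (fun _ => univ)
      fun m (o : Option (Fin s)) => o.elim (c m) fun j => u j (x j)]
    simp [Fintype.sum_option]

/-- residues modulo `1, …, M` -/
abbrev Res (M : ℕ) : Type := (q : Fin M) → ZMod (q + 1)

/-- the sum of the reduced residues -/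
def sig {s M : ℕ} (x : Fin s → Res M) (q : Fin M) : ℕ := ∑ i, (x i q).val

theorem tail {e M : ℕ} (q : Fin M) {ε : ℝ} (hε : ε = 1 ∨ ε = -1) :
    #{x : Fin (6 * e) → Res M | 2 * e * (q + 1 : ℝ) ≤ ε * (2 * sig x q - 6 * e * q)} *
      Real.exp (e / 3) ≤ Fintype.card (Fin (6 * e) → Res M) := by
  set y : Res M → ℝ := fun v => ε * (2 * (v q).val - q) / (q + 1) / 3 with hy
  have hq : (0 : ℝ) < q + 1 := by positivity
  have hv : ∀ v : Res M, (v q).val ≤ q := fun v => Nat.le_of_lt_succ (ZMod.val_lt _)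
  have h1 : ∑ v, Real.exp (y v) ≤ Fintype.card (Res M) * Real.exp (1 / 18) := by
    have h2 : ∑ v, Real.exp (y v) = ∑ v, Real.exp (-y v) := by
      rw [← Equiv.sum_comp (Equiv.subLeft (-1))]
      refine sum_congr rfl fun v _ => congrArg _ ?_
      have h3 : ((-1 : ZMod (q + 1)) - v q).val = q - (v q).val := by
        rw [ZMod.val_sub, ZMod.val_neg_one]
        rw [ZMod.val_neg_one]
        exact hv v
      simp only [hy, Equiv.subLeft_apply, Pi.sub_apply, Pi.neg_apply, Pi.one_apply, h3,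
        Nat.cast_sub (hv v)]
      ring
    have h3 : ∑ v, Real.cosh (y v) ≤ Fintype.card (Res M) * Real.exp (1 / 18) := by
      refine (sum_le_card_nsmul _ _ _ fun v _ => (Real.cosh_le_exp_half_sq _).trans
        (Real.exp_le_exp.2 ?_)).trans_eq (by rw [nsmul_eq_mul, card_univ])
      have h4 : ((v q).val : ℝ) ≤ q := by exact_mod_cast hv v
      have h5 : (0 : ℝ) ≤ (v q).val := by positivity
      have h6 : (ε * (2 * (v q).val - q)) ^ 2 ≤ (q + 1) ^ 2 := by
        rcases hε with rfl | rfl <;> nlinarith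
      rw [hy, div_pow, div_pow]
      have := (div_le_one (by positivity)).2 h6
      linarith
    simp only [Real.cosh_eq, ← sum_div, sum_add_distrib] at h3
    linarith
  have h2 : ∑ x : Fin (6 * e) → Res M, ∏ i, Real.exp (y (x i)) ≤
      Fintype.card (Fin (6 * e) → Res M) * Real.exp (e / 3) := by
    rw [← Fintype.piFinset_univ, ← prod_univ_sum (fun _ => univ) fun _ v => Real.exp (y v),
      prod_const, card_univ, Fintype.card_fun, Fintype.card_fin]
    refine (pow_le_pow_left₀ (by positivity) h1 _).trans_eq ?_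
    rw [mul_pow, ← Real.exp_nat_mul]
    push_cast
    congr 2
    ring
  refine le_of_mul_le_mul_right (le_trans ?_ h2) (Real.exp_pos _)
  rw [mul_assoc, ← Real.exp_add, ← nsmul_eq_mul]
  refine (card_nsmul_le_sum _ _ _ fun x hx => ?_).trans
    (sum_le_sum_of_subset_of_nonneg (filter_subset _ _) fun x _ _ => by positivity)
  rw [← Real.exp_sum, Real.exp_le_exp]
  have h3 := (mem_filter.1 hx).2
  simp only [hy, ← sum_div, ← mul_sum, sum_sub_distrib, sum_const, card_univ, Fintype.card_fin,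
    nsmul_eq_mul]
  rw [sig] at h3
  push_cast at h3 ⊢
  rw [le_div_iff₀ (by norm_num), le_div_iff₀ hq]
  linarith

theorem shifts {e M K : ℕ} (hM : (4 * M : ℝ) ≤ Real.exp (e / 3))
    (hK : Fintype.card (Fin (6 * e) → Res M) < 2 ^ K) :
    ∃ g : Fin K → Fin (6 * e) → Res M, ∀ x, ∃ a, ∀ q : Fin M,
      2 * e * (q + 1) - 3 * e ≤ sig (x + g a) q ∧ sig (x + g a) q + 3 * e ≤ 4 * e * (q + 1) := by
  classical
  set B : Fin M × Bool → Finset (Fin (6 * e) → Res M) := fun qb => {x | 2 * e * (qb.1 + 1 : ℝ) ≤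
    (if qb.2 then 1 else -1) * (2 * sig x qb.1 - 6 * e * qb.1)} with hB
  have h1 : 2 * #(univ.biUnion B) ≤ Fintype.card (Fin (6 * e) → Res M) := by
    have h2 : (#(univ.biUnion B) : ℝ) * Real.exp (e / 3) ≤
        2 * M * Fintype.card (Fin (6 * e) → Res M) := by
      refine (mul_le_mul_of_nonneg_right (Nat.cast_le.2 card_biUnion_le) (by positivity)).trans ?_
      rw [Nat.cast_sum, sum_mul]
      refine (sum_le_card_nsmul _ _ _ fun qb _ => tail qb.1 (by split_ifs <;> simp)).trans_eq ?_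
      simp [mul_comm]
    have h3 := Real.exp_pos (e / 3)
    have h4 : (0 : ℝ) ≤ Fintype.card (Fin (6 * e) → Res M) := by positivity
    rw [← Nat.cast_le (α := ℝ)]
    push_cast
    nlinarith
  obtain ⟨g, hg⟩ := hit (fun x : Fin (6 * e) → Res M => (univ.biUnion B).map
    (Equiv.subRight x).toEmbedding) (fun x => by rwa [card_map]) hK
  refine ⟨g, fun x => (hg x).imp fun a ha q => ?_⟩
  simp only [mem_map_equiv, Equiv.subRight_symm_apply, mem_biUnion, mem_univ, true_and, not_exists,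
    hB, mem_filter, not_le, add_comm (g a)] at ha
  have h2 := ha (q, true)
  have h3 := ha (q, false)
  simp only [if_true, Bool.false_eq_true, if_false] at h2 h3
  rw [tsub_le_iff_right, ← Nat.cast_le (α := ℝ), ← Nat.cast_le (α := ℝ)]
  push_cast
  constructor <;> linarith

theorem many {e M K n : ℕ} (he : 2 ≤ e) (hM : (4 * M : ℝ) ≤ Real.exp (e / 3))
    (hK : Fintype.card (Fin (6 * e) → Res M) < 2 ^ K) (hn : n < Nat.lcmUpto M) :
    ∃ φ : (Fin n → Fin (6 * e)) →
      Fin K × (Fin (6 * e) → ZMod (M * (6 * e * M) ^ (6 * e) + 1)), Free φ := by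
  obtain ⟨g, hg⟩ := shifts hM hK
  choose κ hκ using hg
  let cast : (Fin (6 * e) → ℕ) → Fin (6 * e) → Res M := fun x i q => x i
  let r : Fin K → Fin M → ℕ := fun a q => ((n : ZMod (q + 1)) + ∑ i, g a i q).val
  let ρ : Fin K → Fin M → Fin (2 * e + 1) → ℕ := fun a q k =>
    r a q + (q + 1) * ((2 * e * (q + 1) - 3 * e) / (q + 1) + k)
  let G : Fin K → (Fin (6 * e) → ℕ) → ℤ := fun a x =>
    ∑ q, ∏ k, ((sig (cast x + g a) q : ℤ) - ρ a q k) ^ 2
  have hG : ∀ a, Dec fun x => (G a x : ZMod (M * (6 * e * M) ^ (6 * e) + 1)) := fun a => by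
    convert dec_sum fun q : Fin M => dec_prod (ι := Fin (2 * e + 1) × Fin 2) (s := 6 * e)
      (by simp; omega) (fun m => -(ρ a q m.1 : ZMod (M * (6 * e * M) ^ (6 * e) + 1)))
      fun i (z : ℕ) => (((z : ZMod (q + 1)) + g a i q).val : ℕ) with x
    simp [G, sig, cast, Fintype.prod_prod_type, neg_add_eq_sub]
  choose S hS hS' using hG
  have hsig : ∀ a x (q : Fin M), (sig (cast x + g a) q : ZMod (q + 1)) =
      (∑ i, x i : ℕ) + ∑ i, g a i q := fun a x q => by
    simp [sig, cast, sum_add_distrib]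
  have h0 : ∀ x, ∑ i, x i = n → G (κ (cast x)) x = 0 := fun x hx => sum_eq_zero fun q _ => by
    obtain ⟨h1, h2⟩ := hκ (cast x) q
    have h3 := congrArg ZMod.val (hsig (κ (cast x)) x q)
    rw [ZMod.val_natCast, hx] at h3
    set σ := sig (cast x + g (κ (cast x))) q
    have h4 := Nat.div_le_div_right (c := q + 1) h1
    have h5 : σ / (q + 1) ≤ (2 * e * (q + 1) - 3 * e) / (q + 1) + 2 * e := by
      rw [← Nat.add_mul_div_right _ _ (Nat.succ_pos _)]
      refine Nat.div_le_div_right ?_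
      have : 4 * e * (q + 1) = 2 * e * (q + 1) + 2 * e * (q + 1) := by ring
      rw [Nat.succ_eq_add_one]
      omega
    refine prod_eq_zero (mem_univ ⟨σ / (q + 1) - (2 * e * (q + 1) - 3 * e) / (q + 1), by omega⟩) ?_
    rw [sq_eq_zero_iff, sub_eq_zero, Nat.cast_inj]
    simp only [ρ, r]
    rw [Nat.add_sub_cancel' h4, ← h3, Nat.mod_add_div]
  have h1 : ∀ a x, (G a x : ZMod (M * (6 * e * M) ^ (6 * e) + 1)) = 0 → ∀ q : Fin M,
      ((∑ i, x i : ℕ) : ZMod (q + 1)) = n := fun a x hx q => by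
    have h2 : ∀ q : Fin M, 0 ≤ ∏ k, ((sig (cast x + g a) q : ℤ) - ρ a q k) ^ 2 := fun q =>
      prod_nonneg fun _ _ => sq_nonneg _
    have h3 : G a x ≤ M * (6 * e * M) ^ (6 * e) := by
      refine (sum_le_card_nsmul _ _ ((6 * e * M : ℤ) ^ (6 * e)) fun q _ => ?_).trans_eq (by simp)
      have hq : (q : ℕ) + 1 ≤ M := q.2
      have h4 : sig (cast x + g a) q ≤ 6 * e * M :=
        (sum_le_card_nsmul _ _ M fun i _ => (ZMod.val_lt _).le.trans hq).trans_eq (by simp)
      have h5 : ∀ k, ρ a q k ≤ 6 * e * M := fun k => by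
        have h6 : r a q < q + 1 := ZMod.val_lt _
        have h7 := Nat.mul_div_le (2 * e * (q + 1) - 3 * e) (q + 1)
        have h8 := Nat.mul_le_mul_left (q + 1) (Nat.le_of_lt_succ k.2)
        have h9 := Nat.mul_le_mul_left e hq
        have h10 := Nat.mul_le_mul_right M he
        have h11 := Nat.sub_le (2 * e * (q + 1)) (3 * e)
        simp only [ρ]
        nlinarith
      refine (prod_le_prod (fun _ _ => sq_nonneg _) (g := fun _ => (6 * e * M : ℤ) ^ 2)
        fun k _ => ?_).trans ?_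
      · have h6 := h5 k
        zify at h4 h6
        refine sq_le_sq' ?_ ?_
        · linarith [Nat.cast_nonneg (α := ℤ) (sig (cast x + g a) q)]
        · linarith [Nat.cast_nonneg (α := ℤ) (ρ a q k)]
      · rw [prod_const, card_univ, Fintype.card_fin, ← pow_mul]
        refine pow_le_pow_right₀ ?_ (by omega)
        exact_mod_cast Nat.mul_pos (by omega) (by omega)
    have h4 := Int.eq_zero_of_dvd_of_nonneg_of_lt (sum_nonneg fun q _ => h2 q)
      (by push_cast; exact Int.lt_add_one_of_le h3) ((ZMod.intCast_zmod_eq_zero_iff_dvd _ _).1 hx)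
    obtain ⟨k, -, hk⟩ := prod_eq_zero_iff.1
      ((sum_eq_zero_iff_of_nonneg fun q _ => h2 q).1 h4 q (mem_univ _))
    rw [sq_eq_zero_iff, sub_eq_zero, Nat.cast_inj] at hk
    have h5 := hsig a x q
    rw [hk] at h5
    simpa [ρ, r] using h5.symm
  let cnt : (Fin n → Fin (6 * e)) → Fin (6 * e) → ℕ := fun w i => ∑ j, if w j = i then 1 else 0
  have hcnt : ∀ w, ∑ i, cnt w i = n := fun w => by
    rw [sum_comm]
    simp
  refine ⟨fun w => (κ (cast (cnt w)), fun i => S (κ (cast (cnt w))) i (cnt w)), fun σ w => ?_,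
    fun l ⟨⟨a, c⟩, hc⟩ => ?_⟩
  · have : cnt (w ∘ σ) = cnt w :=
      funext fun i => Equiv.sum_comp σ fun j => if w j = i then 1 else 0
    simp only [this]
  simp only [Prod.mk.injEq] at hc
  let v : Fin (6 * e) → ℕ := fun i => ∑ j, if l.idxFun j = some i then 1 else 0
  have h2 : ∀ b i, S a i (cnt (l b)) = c i := fun b i => by
    rw [← (hc b).1]
    exact congrFun (hc b).2 i
  have h3 : (G a v : ZMod (M * (6 * e * M) ^ (6 * e) + 1)) = G a (cnt (l ⟨0, by omega⟩)) := by
    refine (hS' a v).trans ((sum_congr rfl fun i _ => ?_).trans (hS' a _).symm)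
    rw [h2, ← h2 i]
    refine hS a i _ _ fun j hj => sum_congr rfl fun m _ => ?_
    rw [Line.coe_apply]
    cases l.idxFun m <;> simp [hj.symm]
  rw [← (hc ⟨0, by omega⟩).1, h0 _ (hcnt _), (hc _).1, Int.cast_zero] at h3
  have h4 : ∑ i, v i < n := by
    obtain ⟨j, hj⟩ := l.proper
    rw [sum_comm]
    refine (sum_lt_sum (g := fun _ => 1) (fun m _ => ?_) ⟨j, mem_univ _, by simp [hj]⟩).trans_eq
      (by simp)
    cases l.idxFun m <;> simp
  refine (Nat.le_of_dvd (Nat.sub_pos_of_lt h4) (Finset.lcm_dvd (s := Icc 1 M) (f := id)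
    fun q hq => ?_)).not_gt ((Nat.sub_le _ _).trans_lt hn)
  obtain ⟨h5, h6⟩ := mem_Icc.1 hq
  obtain ⟨q, rfl⟩ : ∃ q', q = q' + 1 := ⟨q - 1, by omega⟩
  exact (Nat.modEq_iff_dvd' h4.le).1 ((ZMod.natCast_eq_natCast_iff _ _ _).1 (h1 a v h3 ⟨q, h6⟩))

end Pool.Agent.Lib.MP_176643_co
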