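import Mathlib

/-! Trading colours for letters in symmetric line-free colourings. -/

namespace Pool.Agent.Lib.MP_176643_co

open Finset Combinatorics

/-- symmetric and line-free -/
def Free {α C : Type} {n : ℕ} (col : (Fin n → α) → C) : Prop :=
  (∀ (σ : Equiv.Perm (Fin n)) w, col (w ∘ σ) = col w) ∧ ∀ l : Line α (Fin n), ¬ l.IsMono col

theorem hit {Ω I : Type} [Fintype Ω] [Fintype I] [Nonempty Ω] (E : I → Finset Ω)
    (hE : ∀ i, 2 * #(E i) ≤ Fintype.card Ω) {K : ℕ} (hK : Fintype.card I < 2 ^ K) :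
    ∃ g : Fin K → Ω, ∀ i, ∃ a, g a ∉ E i := by
  classical
  by_contra! h
  have h1 : (univ : Finset (Fin K → Ω)) ⊆ univ.biUnion fun i => Fintype.piFinset fun _ => E i :=
    fun g _ => by simpa using h g
  have h2 := (card_le_card h1).trans card_biUnion_le
  simp only [card_univ, Fintype.card_fun, Fintype.card_fin, Fintype.card_piFinset, prod_const] at h2
  have h3 : 2 ^ K * ∑ i, #(E i) ^ K ≤ Fintype.card I * Fintype.card Ω ^ K := by
    rw [mul_sum]
    refine sum_le_card_nsmul _ _ _ fun i _ => ?_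
    rw [← mul_pow]
    exact Nat.pow_le_pow_left (hE i) _
  have h4 := Nat.mul_lt_mul_of_pos_right hK (pow_pos (Fintype.card_pos (α := Ω)) K)
  have h5 := Nat.mul_le_mul_left (2 ^ K) h2
  omega

theorem two_col {X I : Type} [Fintype X] [Fintype I] (E : I → Finset X) {H : ℕ}
    (hE : ∀ i, H ≤ #(E i)) (hI : 2 * Fintype.card I < 2 ^ H) :
    ∃ κ : X → Fin 2, ∀ i c, ∃ x ∈ E i, κ x ≠ c := by
  classical
  by_contra! h
  have h1 : (univ : Finset (X → Fin 2)) ⊆ univ.biUnion fun ic : I × Fin 2 =>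
      Fintype.piFinset fun x => if x ∈ E ic.1 then {ic.2} else univ := fun κ _ => by
    obtain ⟨i, c, hc⟩ := h κ
    refine mem_biUnion.2 ⟨(i, c), mem_univ _, Fintype.mem_piFinset.2 fun x => ?_⟩
    split_ifs with hx
    · simp [hc x hx]
    · simp
  have h2 := (card_le_card h1).trans card_biUnion_le
  simp only [card_univ, Fintype.card_fun, Fintype.card_fin, Fintype.card_piFinset] at h2
  have h3 : 2 ^ H * ∑ ic : I × Fin 2, ∏ x, #(if x ∈ E ic.1 then {ic.2} else univ : Finset (Fin 2)) ≤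
      Fintype.card (I × Fin 2) * 2 ^ Fintype.card X := by
    rw [mul_sum]
    refine sum_le_card_nsmul _ _ _ fun ic _ => ?_
    rw [← prod_mul_prod_compl (E ic.1), prod_eq_one, one_mul, prod_eq_pow_card (b := 2), ← pow_add,
      ← card_add_card_compl (E ic.1)]
    · exact Nat.pow_le_pow_right two_pos (Nat.add_le_add_right (hE _) _)
    · exact fun x hx => by simp [mem_compl.1 hx]
    · exact fun x hx => by simp [hx]
  have h4 := Nat.mul_lt_mul_of_pos_right hI (pow_pos two_pos (Fintype.card X))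
  have h5 := Nat.mul_le_mul_left (2 ^ H) h2
  rw [Fintype.card_prod, Fintype.card_fin, mul_comm _ 2] at h3
  omega

theorem reduce {C : Type} [Fintype C] {n s M H t : ℕ} {φ : (Fin n → Fin (s + 1)) → C} (hφ : Free φ)
    (h1 : 2 * (H * s ^ M) ≤ (s + 1) ^ M) (h2 : 2 * (Fintype.card C ^ (s + 1)) ^ M < 2 ^ H)
    (h3 : M * (s + 1 + H) < t) : ∃ col : (Fin n → Fin t) → Fin 2, Free col := by
  classical
  obtain ⟨A, hA⟩ := hit (Ω := Fin M → Fin (s + 1))
    (I := (Fin M → Fin (s + 1) → Bool) × (Fin H → Fin M → Bool)) (K := t)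
    (fun gZ => univ.biUnion fun h => Fintype.piFinset fun j =>
      {b | gZ.1 j b = gZ.2 h j ∧ ∀ c, ∃ b, gZ.1 j b ≠ c}) (fun gZ => by
      rw [Fintype.card_fun, Fintype.card_fin, Fintype.card_fin]
      refine (Nat.mul_le_mul_left _ (card_biUnion_le.trans ((sum_le_card_nsmul _ _ (s ^ M)
        fun h _ => ?_).trans_eq (by simp)))).trans h1
      rw [Fintype.card_piFinset]
      refine (prod_le_pow_card _ _ s fun j _ => ?_).trans_eq (by simp)
      refine Nat.le_of_lt_succ ((card_lt_card (ssubset_univ_iff.2 fun h4 => ?_)).trans_eq (by simp))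
      simp only [eq_univ_iff_forall, mem_filter, mem_univ, true_and] at h4
      obtain ⟨b, hb⟩ := (h4 0).2 (gZ.2 h j)
      exact hb (h4 b).1) (by
      simp only [Fintype.card_prod, Fintype.card_fun, Fintype.card_bool, Fintype.card_fin, ← pow_mul,
        ← pow_add]
      exact Nat.pow_lt_pow_right one_lt_two (by linarith))
  have : Nonempty (Fin t) := ⟨⟨0, by omega⟩⟩
  obtain ⟨κ, hκ⟩ := two_col (X := Fin M → C) (H := H)
    (I := {f : Fin M → Fin (s + 1) → C // ∀ j, ∃ b, f j b ≠ f j 0})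
    (fun f => univ.image fun a j => f.1 j (A a j)) (fun f => by
      by_contra! h4
      obtain ⟨e⟩ := Function.Embedding.nonempty_of_card_le
        (α := univ.image fun a j => f.1 j (A a j)) (β := Fin H) (by
          rw [Fintype.card_coe, Fintype.card_fin]
          exact h4.le)
      have : Nonempty (univ.image fun a j => f.1 j (A a j)) :=
        (univ_nonempty.image _).coe_sort
      obtain ⟨a, ha⟩ := hA (fun j b => decide (f.1 j b = f.1 j 0),
        fun h j => decide ((Function.invFun e h).1 j = f.1 j 0))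
      refine ha (mem_biUnion.2 ⟨e ⟨_, mem_image_of_mem _ (mem_univ a)⟩, mem_univ _,
        Fintype.mem_piFinset.2 fun j => mem_filter.2 ⟨mem_univ _, ?_, fun c => ?_⟩⟩)
      · simp only [Function.leftInverse_invFun e.injective _]
      · obtain ⟨b, hb⟩ := f.2 j
        cases c
        · exact ⟨0, by simp⟩
        · exact ⟨b, by simpa⟩)
    ((Nat.mul_le_mul_left _ ((Fintype.card_subtype_le _).trans_eq (by simp))).trans_lt h2)
  refine ⟨fun w => κ fun j => φ fun i => A (w i) j, fun σ w => congrArg κ (funext fun j =>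
    hφ.1 σ fun i => A (w i) j), fun l ⟨c, hc⟩ => ?_⟩
  obtain ⟨x, hx, hx'⟩ := hκ ⟨fun j b => φ (l.map (A · j) b), fun j => by
    by_contra! h4
    exact hφ.2 _ ⟨_, h4⟩⟩ c
  obtain ⟨a, -, rfl⟩ := mem_image.1 hx
  refine hx' (Eq.trans (congrArg κ (funext fun j => congrArg φ ?_)) (hc a))
  exact Line.map_apply (A · j) l a

end Pool.Agent.Lib.MP_176643_co
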