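import Pool.Agent.Lib.MP_176643_co.Sharp

/-! Colourings whose colour classes on every line are small, and the trade of colours for
letters that uses them. -/

namespace Pool.Agent.Lib.MP_176643_co

open Finset Combinatorics Polynomial

theorem lead {s D : ℕ} {J ι : Type} [Fintype J] [Fintype ι] (hι : Fintype.card ι = D)
    (B : Finset (Fin s)) (hB : #B = D + 1) :
    ∃ w : Fin s → ℝ, (∀ b, |w b| ≤ 1) ∧ ∀ (c : J → ι → ℝ) (u : J → Fin s → ℝ),
      ∑ q, ∏ m, (c q m + ∑ j, u q j) =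
        ∑ b ∈ B, w b * ∑ q, ∏ m, (c q m * (b : ℕ) +
          ∑ j : Fin s, (((b : ℕ) : ℝ) - (j : ℕ)) * u q j) := by
  classical
  refine ⟨fun b => (∏ j ∈ B.erase b, (((b : ℕ) : ℝ) - (j : ℕ)))⁻¹, fun b => ?_, fun c u => ?_⟩
  · rw [abs_inv, abs_prod]
    refine inv_le_one_of_one_le₀ (one_le_prod fun j hj => ?_)
    have h1 : ((b : ℕ) : ℤ) - (j : ℕ) ≠ 0 := fun h =>
      (mem_erase.1 hj).1 (Fin.ext (by omega))
    exact_mod_cast Int.one_le_abs h1
  · let f : J → ι → ℝ[X] := fun q m =>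
      C (c q m + ∑ j, u q j) * X + C (-∑ j : Fin s, ((j : ℕ) : ℝ) * u q j)
    have h1 : ∀ q m, (f q m).natDegree ≤ 1 := fun q m => natDegree_linear_le
    have h2 : (∑ q, ∏ m, f q m).degree < #B := by
      rw [hB]
      refine (degree_le_of_natDegree_le (n := D) (natDegree_sum_le_of_forall_le _ _ fun q _ =>
        (natDegree_prod_le _ _).trans ((sum_le_card_nsmul _ _ 1 fun m _ => h1 q m).trans_eq
          (by simp [hι])))).trans_lt ?_
      exact_mod_cast Nat.lt_succ_self D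
    have h3 := Lagrange.coeff_eq_sum (v := fun b : Fin s => ((b : ℕ) : ℝ)) (s := B)
      (fun a _ b _ h => Fin.ext (Nat.cast_injective h)) h2
    rw [hB, Nat.add_sub_cancel, finsetSum_coeff] at h3
    refine Eq.trans (sum_congr rfl fun q _ => ?_) (h3.trans (sum_congr rfl fun b _ => ?_))
    · have := coeff_prod_of_natDegree_le univ (f q) 1 fun m _ => h1 q m
      rw [card_univ, hι, mul_one] at this
      rw [this]
      exact prod_congr rfl fun m _ => by simp [f]
    · rw [div_eq_inv_mul, eval_finsetSum]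
      refine congrArg _ (sum_congr rfl fun q _ => ?_)
      rw [eval_prod]
      refine prod_congr rfl fun m _ => ?_
      simp only [f, eval_add, eval_mul, eval_C, eval_X, sub_mul, sum_sub_distrib, ← mul_sum]
      ring

theorem r_col {X I : Type} [Fintype X] [Fintype I] (E : I → Finset X) {H r : ℕ} (hr : 0 < r)
    (hE : ∀ i, H ≤ #(E i)) (hI : r * Fintype.card I < r ^ H) :
    ∃ κ : X → Fin r, ∀ i c, ∃ x ∈ E i, κ x ≠ c := by
  classical
  by_contra! h
  have h1 : (univ : Finset (X → Fin r)) ⊆ univ.biUnion fun ic : I × Fin r =>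
      Fintype.piFinset fun x => if x ∈ E ic.1 then {ic.2} else univ := fun κ _ => by
    obtain ⟨i, c, hc⟩ := h κ
    refine mem_biUnion.2 ⟨(i, c), mem_univ _, Fintype.mem_piFinset.2 fun x => ?_⟩
    split_ifs with hx
    · simp [hc x hx]
    · simp
  have h2 := (card_le_card h1).trans card_biUnion_le
  simp only [card_univ, Fintype.card_fun, Fintype.card_fin, Fintype.card_piFinset] at h2
  have h3 : r ^ H * ∑ ic : I × Fin r, ∏ x, #(if x ∈ E ic.1 then {ic.2} else univ : Finset (Fin r)) ≤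
      Fintype.card (I × Fin r) * r ^ Fintype.card X := by
    rw [mul_sum]
    refine sum_le_card_nsmul _ _ _ fun ic _ => ?_
    rw [← prod_mul_prod_compl (E ic.1), prod_eq_one, one_mul, prod_eq_pow_card (b := r), ← pow_add,
      ← card_add_card_compl (E ic.1)]
    · exact Nat.pow_le_pow_right hr (Nat.add_le_add_right (hE _) _)
    · exact fun x hx => by simp [mem_compl.1 hx]
    · exact fun x hx => by simp [hx]
  have h4 := Nat.mul_lt_mul_of_pos_right hI (pow_pos hr (Fintype.card X))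
  have h5 := Nat.mul_le_mul_left (r ^ H) h2
  rw [Fintype.card_prod, Fintype.card_fin, mul_comm _ r] at h3
  omega

theorem reduceR {C : Type} [Fintype C] [DecidableEq C] {s n M H t d r : ℕ} (hs : 0 < s)
    (hr : 0 < r) {φ : (Fin n → Fin s) → C} (hσ : ∀ (σ : Equiv.Perm (Fin n)) w, φ (w ∘ σ) = φ w)
    (hφ : ∀ (l : Line (Fin s) (Fin n)) c, #{b | φ (l b) = c} ≤ d)
    (h1 : 4 * (H * d ^ M) ≤ s ^ M) (h2 : r * (Fintype.card C ^ s) ^ M < r ^ H)
    (h3 : (s ^ s) ^ M * 4 ^ H < 2 ^ t) : ∃ col : (Fin n → Fin t) → Fin r, Free col := by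
  classical
  have : Nonempty (Fin s) := ⟨⟨0, hs⟩⟩
  obtain ⟨A, hA⟩ := spread (Ω := Fin M → Fin s) (H := H) (t := t)
    (I := {g : Fin M → Fin s → Fin s // ∀ j c, #{b | g j b = c} ≤ d}) (fun g x j => g.1 j (x j))
    (fun g Z hZ => by
      rw [Fintype.card_fun, Fintype.card_fin, Fintype.card_fin]
      refine le_trans (Nat.mul_le_mul_left _ ?_) h1
      refine (card_le_card (t := Z.biUnion fun z => Fintype.piFinset fun j => {b | g.1 j b = z j})
        fun x hx => mem_biUnion.2 ⟨_, (mem_filter.1 hx).2, by simp⟩).trans (card_biUnion_le.trans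
          ((sum_le_card_nsmul _ _ (d ^ M) fun z _ => ?_).trans (Nat.mul_le_mul_right _ hZ.le)))
      rw [Fintype.card_piFinset]
      exact (prod_le_pow_card _ _ d fun j _ => g.2 j (z j)).trans_eq (by simp)) (by
      refine (Nat.mul_le_mul_right _ (Fintype.card_subtype_le _)).trans_lt ?_
      simpa only [Fintype.card_fun, Fintype.card_fin] using h3)
  obtain ⟨κ, hκ⟩ := r_col (X := Fin M → C) (H := H)
    (I := {f : Fin M → Fin s → C // ∀ j c, #{b | f j b = c} ≤ d})
    (fun f => univ.image fun a j => f.1 j (A a j)) hr (fun f => by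
      refine (hA ⟨fun j b => Function.invFun (f.1 j) (f.1 j b), fun j c => ?_⟩).trans
        (le_trans (le_of_eq ?_) (card_image_le (f := fun y j => Function.invFun (f.1 j) (y j))))
      · refine le_trans (card_le_card fun b hb => ?_) (f.2 j (f.1 j c))
        rw [mem_filter] at hb ⊢
        exact ⟨hb.1, by rw [← hb.2]; exact (Function.invFun_eq ⟨b, rfl⟩).symm⟩
      · rw [image_image]
        rfl)
    ((Nat.mul_le_mul_left _ ((Fintype.card_subtype_le _).trans_eq (by simp))).trans_lt h2)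
  refine ⟨fun w => κ fun j => φ fun i => A (w i) j, fun σ w => congrArg κ (funext fun j =>
    hσ σ fun i => A (w i) j), fun l ⟨c, hc⟩ => ?_⟩
  obtain ⟨x, hx, hx'⟩ := hκ ⟨fun j b => φ (l.map (A · j) b), fun j => hφ _⟩ c
  obtain ⟨a, -, rfl⟩ := mem_image.1 hx
  refine hx' (Eq.trans (congrArg κ (funext fun j => congrArg φ ?_)) (hc a))
  exact Line.map_apply (A · j) l a

theorem manyR {e M K n : ℕ} (he : 2 ≤ e) (hM : (4 * M : ℝ) ≤ Real.exp (e / 3))
    (hK : Fintype.card (Fin (6 * e) → Res M) < 2 ^ K) (hn : n < Nat.lcmUpto M) :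
    ∃ φ : (Fin n → Fin (6 * e)) →
      Fin K × (Fin (6 * e) → ZMod (6 * e * M ^ 5 * (6 * e) ^ (3 * (6 * e)) + 1)),
      (∀ (σ : Equiv.Perm (Fin n)) w, φ (w ∘ σ) = φ w) ∧
      ∀ (l : Line (Fin (6 * e)) (Fin n)) c, #{b | φ (l b) = c} ≤ (2 * e + 1) * 2 := by
  obtain ⟨g, hg⟩ := shifts hM hK
  choose κ hκ using hg
  let cast : (Fin (6 * e) → ℕ) → Fin (6 * e) → Res M := fun x i q => x i
  let r : Fin K → Fin M → ℕ := fun a q =>
    ((n : ZMod (q + 1)) + ∑ i, g a i q).val + (q + 1) * ((2 * e * (q + 1) - 3 * e) / (q + 1))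
  let G : Fin K → (Fin (6 * e) → ℕ) → ℝ := fun a x => ∑ q, ∏ k : Fin (2 * e + 1),
    ((((sig (cast x + g a) q : ℤ) - r a q : ℤ) - ((q : ℕ) + 1 : ℕ) * k) / ((q : ℕ) + 1 : ℕ) : ℝ) ^ 2
  let cc : Fin K → Fin M → Fin (2 * e + 1) → ℝ := fun a q k => -((r a q + (q + 1) * k) / (q + 1) : ℝ)
  let uu : Fin K → (Fin (6 * e) → ℕ) → Fin M → Fin (6 * e) → ℝ := fun a x q i =>
    (((x i : ZMod (q + 1)) + g a i q).val : ℕ) / (q + 1)
  let S : Fin K → Fin (6 * e) → (Fin (6 * e) → ℕ) → ℝ := fun a b x =>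
    ∑ q, ∏ m : Fin (2 * e + 1) × Fin 2, (cc a q m.1 * (b : ℕ) +
      ∑ j : Fin (6 * e), (((b : ℕ) : ℝ) - (j : ℕ)) * uu a x q j)
  have hG : ∀ a x, G a x = ∑ q, ∏ m : Fin (2 * e + 1) × Fin 2, (cc a q m.1 + ∑ j, uu a x q j) :=
    fun a x => by
      simp [G, cc, uu, sig, cast, Fintype.prod_prod_type, neg_add_eq_sub, ← sum_div, ← sub_div,
        sub_sub, -prod_div_distrib]
  have hS : ∀ a i x x', (∀ j, j ≠ i → x j = x' j) → S a i x = S a i x' := fun a i x x' h =>
    sum_congr rfl fun q _ => prod_congr rfl fun m _ => congrArg _ (sum_congr rfl fun j _ => by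
      by_cases hj : j = i
      · simp [hj]
      · simp only [uu, h j hj])
  have hsig : ∀ a x (q : Fin M), (sig (cast x + g a) q : ZMod (q + 1)) =
      (∑ i, x i : ℕ) + ∑ i, g a i q := fun a x q => by
    simp [sig, cast, sum_add_distrib]
  have h0 : ∀ x, ∑ i, x i = n → G (κ (cast x)) x = 0 := fun x hx => sum_eq_zero fun q _ => by
    obtain ⟨h1, h2⟩ := hκ (cast x) q
    have h3 := congrArg ZMod.val (hsig (κ (cast x)) x q)
    rw [ZMod.val_natCast, hx] at h3
    set σ := sig (cast x + g (κ (cast x))) q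
    have h4 := Nat.div_le_div_right (c := q + 1) h1
    have h5 : σ / (q + 1) ≤ (2 * e * (q + 1) - 3 * e) / (q + 1) + 2 * e := by
      rw [← Nat.add_mul_div_right _ _ (Nat.succ_pos _)]
      refine Nat.div_le_div_right ?_
      have : 4 * e * (q + 1) = 2 * e * (q + 1) + 2 * e * (q + 1) := by ring
      rw [Nat.succ_eq_add_one]
      omega
    refine prod_eq_zero (mem_univ ⟨σ / (q + 1) - (2 * e * (q + 1) - 3 * e) / (q + 1), by omega⟩) ?_
    rw [sq_eq_zero_iff, div_eq_zero_iff, Int.cast_sub, sub_sub, sub_eq_zero]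
    left
    norm_cast
    simp only [r]
    rw [add_assoc, ← mul_add, Nat.add_sub_cancel' h4, ← h3, Nat.mod_add_div]
  have he' : (2 : ℝ) ≤ e := by exact_mod_cast he
  have h1 : ∀ a b x, 0 ≤ S a b x ∧ S a b x ≤ M * (6 * e) ^ (3 * (6 * e)) := fun a b x => by
    simp only [S, Fintype.prod_prod_type, prod_const, card_univ, Fintype.card_fin]
    refine ⟨by positivity, (sum_le_card_nsmul _ _ ((6 * e : ℝ) ^ (3 * (6 * e))) fun q _ => ?_).trans_eq
      (by simp)⟩
    refine (prod_le_prod (fun _ _ => sq_nonneg _) (g := fun _ => ((6 * e : ℝ) ^ 3) ^ 2)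
      fun k _ => ?_).trans ?_
    · have h5 : r a q + (q + 1) * k ≤ 6 * e * (q + 1) := by
        have h6 := ZMod.val_lt ((n : ZMod (q + 1)) + ∑ i, g a i q)
        have h7 := Nat.mul_div_le (2 * e * (q + 1) - 3 * e) (q + 1)
        have h8 := Nat.mul_le_mul_left (q + 1) (Nat.le_of_lt_succ k.2)
        have h11 := Nat.sub_le (2 * e * (q + 1)) (3 * e)
        simp only [r]
        nlinarith
      rw [← Nat.cast_le (α := ℝ)] at h5
      push_cast at h5
      have h6 : |cc a q k| ≤ 6 * e := by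
        rw [abs_neg, abs_of_nonneg (by positivity), div_le_iff₀ (by positivity)]
        exact h5
      have h7 : ∀ j : Fin (6 * e), ((j : ℕ) : ℝ) ≤ 6 * e := fun j => by exact_mod_cast j.2.le
      have h8 : |∑ j : Fin (6 * e), (((b : ℕ) : ℝ) - (j : ℕ)) * uu a x q j| ≤ 6 * e * (6 * e) := by
        refine (abs_sum_le_sum_abs _ _).trans ((sum_le_card_nsmul _ _ (6 * e : ℝ)
          fun j _ => ?_).trans_eq (by simp))
        rw [abs_mul, ← mul_one (6 * e : ℝ)]
        refine mul_le_mul (abs_le.2 ⟨?_, ?_⟩) ?_ (abs_nonneg _) (by positivity)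
        · linarith [h7 j, Nat.cast_nonneg (α := ℝ) (b : ℕ)]
        · linarith [h7 b, Nat.cast_nonneg (α := ℝ) (j : ℕ)]
        · rw [abs_of_nonneg (by positivity), div_le_one (by positivity)]
          exact_mod_cast (ZMod.val_lt _).le
      have h9 : |cc a q k * (b : ℕ)| ≤ 6 * e * (6 * e) := by
        rw [abs_mul, Nat.abs_cast]
        exact mul_le_mul h6 (h7 b) (by positivity) (by positivity)
      rw [← sq_abs]
      refine pow_le_pow_left₀ (abs_nonneg _) ((abs_add_le _ _).trans ?_) _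
      nlinarith [mul_nonneg (mul_self_nonneg (e : ℝ)) (sub_nonneg.2 he')]
    · rw [prod_const, card_univ, Fintype.card_fin, ← pow_mul, ← pow_mul]
      exact pow_le_pow_right₀ (by linarith) (by omega)
  have h2 : ∀ a x, (M : ℝ) ^ 4 * G a x < 1 → ∀ q : Fin M,
      ((∑ i, x i : ℕ) : ZMod (q + 1)) = n := fun a x hx q => by
    by_contra h3
    refine hx.not_ge ((prod_ge (D := 2 * e + 1) (Nat.succ_pos q) q.2
      ((sig (cast x + g a) q : ℤ) - r a q) fun k hk => h3 ?_).trans (mul_le_mul_of_nonneg_left ?_ (by positivity)))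
    swap
    · simp only [G]
      exact single_le_sum (f := fun q : Fin M => ∏ k : Fin (2 * e + 1), ((((sig (cast x + g a) q : ℤ) -
        r a q : ℤ) - ((q : ℕ) + 1 : ℕ) * k) / ((q : ℕ) + 1 : ℕ) : ℝ) ^ 2) (fun _ _ => by positivity)
        (mem_univ q)
    have h5 := hsig a x q
    rw [sub_eq_iff_eq_add] at hk
    norm_cast at hk
    rw [hk] at h5
    simpa [r] using h5.symm
  let cnt : (Fin n → Fin (6 * e)) → Fin (6 * e) → ℕ := fun w i => ∑ j, if w j = i then 1 else 0
  have hcnt : ∀ w, ∑ i, cnt w i = n := fun w => by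
    rw [sum_comm]
    simp
  refine ⟨fun w => (κ (cast (cnt w)),
    fun i => (⌊6 * e * M ^ 4 * S (κ (cast (cnt w))) i (cnt w)⌋ : ℤ)), fun σ w => ?_,
    fun l ⟨a, c⟩ => not_lt.1 fun hc => ?_⟩
  · have : cnt (w ∘ σ) = cnt w :=
      funext fun i => Equiv.sum_comp σ fun j => if w j = i then 1 else 0
    simp only [this]
  obtain ⟨B, hB, hB'⟩ := exists_subset_card_eq hc
  replace hB := fun b hb => Prod.mk.inj (mem_filter.1 (hB (x := b) hb)).2
  obtain ⟨o, ho⟩ := card_pos.1 (hB' ▸ Nat.succ_pos _ : 0 < #B)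
  obtain ⟨w, hw, hw'⟩ := lead (J := Fin M) (ι := Fin (2 * e + 1) × Fin 2) (D := (2 * e + 1) * 2)
    (by simp) B hB'
  let v : Fin (6 * e) → ℕ := fun i => ∑ j, if l.idxFun j = some i then 1 else 0
  have h3 : ∀ b ∈ B, ∀ i, ((⌊6 * e * M ^ 4 * S a i (cnt (l b))⌋ : ℤ) : ZMod _) = c i :=
    fun b hb i => by
      rw [← (hB b hb).1]
      exact congrFun (hB b hb).2 i
  have h4 : ∀ i, S a i (cnt (l i)) = S a i v := fun i =>
    hS a i _ _ fun j hj => sum_congr rfl fun m _ => by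
      rw [Line.coe_apply]
      cases l.idxFun m <;> simp [hj.symm]
  have h5 : ∑ b ∈ B, w b * S a b (cnt (l o)) = 0 := by
    rw [← hw' (fun q m => cc a q m.1) (uu a (cnt (l o))), ← hG, ← (hB o ho).1, h0 _ (hcnt _)]
  have h6 : ∀ b ∈ B, |6 * e * M ^ 4 * S a b v - 6 * e * M ^ 4 * S a b (cnt (l o))| < 1 :=
    fun b hb => by
      have h7 := Int.floor_le (6 * e * M ^ 4 * S a b v)
      have h8 := Int.lt_floor_add_one (6 * e * M ^ 4 * S a b v)
      have h9 := Int.floor_le (6 * e * M ^ 4 * S a b (cnt (l o)))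
      have h10 := Int.lt_floor_add_one (6 * e * M ^ 4 * S a b (cnt (l o)))
      have h11 : ⌊6 * e * M ^ 4 * S a b v⌋ - ⌊6 * e * M ^ 4 * S a b (cnt (l o))⌋ = 0 := by
        refine Int.eq_zero_of_abs_lt_dvd ((ZMod.intCast_zmod_eq_zero_iff_dvd _
          (6 * e * M ^ 5 * (6 * e) ^ (3 * (6 * e)) + 1)).1 ?_) ?_
        · rw [Int.cast_sub, ← h4, h3 b hb, h3 o ho, sub_self]
        · rw [← Int.cast_lt (R := ℝ)]
          push_cast
          have h12 : (0 : ℝ) ≤ 6 * e * M ^ 4 := by positivity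
          have h13 := mul_le_mul_of_nonneg_left (h1 a b v).2 h12
          have h14 := mul_nonneg h12 (h1 a b v).1
          have h15 := mul_le_mul_of_nonneg_left (h1 a b (cnt (l o))).2 h12
          have h16 := mul_nonneg h12 (h1 a b (cnt (l o))).1
          have h17 : (6 * e * M ^ 4 : ℝ) * (M * (6 * e) ^ (3 * (6 * e))) =
              6 * e * M ^ 5 * (6 * e) ^ (3 * (6 * e)) := by ring
          rw [abs_lt]
          constructor <;> linarith
      rw [sub_eq_zero] at h11
      rw [h11] at h7 h8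
      rw [abs_lt]
      constructor <;> linarith
  have h8 : (M : ℝ) ^ 4 * G a v < 1 := by
    have h7 : 6 * e * M ^ 4 * G a v = ∑ b ∈ B, w b *
        (6 * e * M ^ 4 * S a b v - 6 * e * M ^ 4 * S a b (cnt (l o))) := by
      rw [hG, hw' (fun q m => cc a q m.1) (uu a v), ← sub_zero (∑ b ∈ B, _), ← h5,
        ← sum_sub_distrib, mul_sum]
      exact sum_congr rfl fun b _ => by ring
    have h9 : 6 * e * M ^ 4 * G a v < 6 * e := by
      rw [h7]
      refine (sum_lt_sum_of_nonempty (g := fun _ => (1 : ℝ)) ⟨o, ho⟩ fun b hb => ?_).trans_le ?_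
      · refine (le_abs_self _).trans_lt ?_
        rw [abs_mul]
        exact (mul_le_of_le_one_left (abs_nonneg _) (hw b)).trans_lt (h6 b hb)
      · rw [sum_const, nsmul_eq_mul, mul_one]
        exact_mod_cast (card_le_univ B).trans_eq (Fintype.card_fin _)
    rw [mul_assoc] at h9
    nlinarith
  have h9 : ∑ i, v i < n := by
    obtain ⟨j, hj⟩ := l.proper
    rw [sum_comm]
    refine (sum_lt_sum (g := fun _ => 1) (fun m _ => ?_) ⟨j, mem_univ _, by simp [hj]⟩).trans_eq
      (by simp)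
    cases l.idxFun m <;> simp
  refine (Nat.le_of_dvd (Nat.sub_pos_of_lt h9) (Finset.lcm_dvd (s := Icc 1 M) (f := id)
    fun q hq => ?_)).not_gt ((Nat.sub_le _ _).trans_lt hn)
  obtain ⟨h10, h11⟩ := mem_Icc.1 hq
  obtain ⟨q, rfl⟩ : ∃ q', q = q' + 1 := ⟨q - 1, by omega⟩
  exact (Nat.modEq_iff_dvd' h9.le).1 ((ZMod.natCast_eq_natCast_iff _ _ _).1 (h2 a v h8 ⟨q, h11⟩))

end Pool.Agent.Lib.MP_176643_co
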