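import Pool.Agent.Lib.MP_176643_co.Many

/-! Sharper forms of the two steps. -/

namespace Pool.Agent.Lib.MP_176643_co

open Finset Combinatorics

theorem spread {Ω I Y : Type} [Fintype Ω] [Fintype I] [Nonempty Ω] [DecidableEq Y] (g : I → Ω → Y)
    {H : ℕ} (hg : ∀ i (Z : Finset Y), #Z < H → 4 * #{x | g i x ∈ Z} ≤ Fintype.card Ω) {t : ℕ}
    (ht : Fintype.card I * 4 ^ H < 2 ^ t) :
    ∃ A : Fin t → Ω, ∀ i, H ≤ #(univ.image fun a => g i (A a)) := by
  classical
  let w : ℕ → ℕ := fun c => if c < H then 4 ^ (H - c) else 0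
  have key : ∀ t, ∃ A : Fin t → Ω,
      2 ^ t * ∑ i, w #(univ.image fun a => g i (A a)) ≤ Fintype.card I * 4 ^ H := fun t => by
    induction t with
    | zero =>
      refine ⟨Fin.elim0, (one_mul _).trans_le (sum_le_card_nsmul _ _ _ fun i _ => ?_)⟩
      simp only [w]
      split_ifs <;> simp
    | succ t ih =>
      obtain ⟨A, hA⟩ := ih
      have h1 : ∑ x, 2 * ∑ i, w #(insert (g i x) (univ.image fun a => g i (A a))) ≤
          ∑ _x : Ω, ∑ i, w #(univ.image fun a => g i (A a)) := by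
        rw [← mul_sum, sum_comm, sum_comm (s := univ) (t := univ)
          (f := fun _ i => w #(univ.image fun a => g i (A a))), mul_sum]
        refine sum_le_sum fun i _ => ?_
        set Z := univ.image fun a => g i (A a)
        by_cases hZ : #Z < H
        · have h2 := hg i Z hZ
          have h3 : 4 * ∑ x ∈ ({x | g i x ∈ Z} : Finset Ω)ᶜ, w #(insert (g i x) Z) ≤ Fintype.card Ω * w #Z := by
            rw [mul_sum]
            refine (sum_le_card_nsmul _ _ (w #Z) fun x hx => ?_).trans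
              (Nat.mul_le_mul_right _ (card_le_univ _))
            rw [card_insert_of_notMem (by simpa using hx)]
            simp only [w, if_pos hZ]
            split_ifs with h4
            · rw [← pow_succ']
              exact Nat.pow_le_pow_right (by omega) (by omega)
            · simp
          rw [← sum_add_sum_compl {x | g i x ∈ Z}, sum_congr rfl (g := fun _ => w #Z) fun x hx => by
            rw [insert_eq_of_mem (mem_filter.1 hx).2]]
          simp only [sum_const, smul_eq_mul, card_univ]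
          nlinarith [Nat.mul_le_mul_right (w #Z) h2]
        · rw [sum_eq_zero fun x _ => if_neg fun h => hZ ((card_le_card (subset_insert _ _)).trans_lt h)]
          simp
      obtain ⟨x, -, hx⟩ := exists_le_of_sum_le univ_nonempty h1
      refine ⟨Fin.cons x A, le_trans ?_ hA⟩
      simp only [Fin.univ_succ, cons_eq_insert, image_insert, map_eq_image, image_image,
        Fin.cons_zero, Function.comp_def, Function.Embedding.coeFn_mk, Fin.cons_succ]
      rw [pow_succ, mul_assoc]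
      exact Nat.mul_le_mul_left _ hx
  obtain ⟨A, hA⟩ := key t
  refine ⟨A, fun i => not_lt.1 fun h => ?_⟩
  have h1 := single_le_sum (f := fun i => w #(univ.image fun a => g i (A a)))
    (fun _ _ => Nat.zero_le _) (mem_univ i)
  simp only [w, if_pos h] at h1
  have h2 := Nat.mul_le_mul_left (2 ^ t) ((Nat.one_le_pow _ _ (by omega)).trans h1)
  simp only [w] at hA
  omega

theorem reduce' {C : Type} [Fintype C] {s n M H t : ℕ} {φ : (Fin n → Fin (s + 1)) → C} (hφ : Free φ)
    (h1 : 4 * (H * s ^ M) ≤ (s + 1) ^ M) (h2 : 2 * (Fintype.card C ^ (s + 1)) ^ M < 2 ^ H)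
    (h3 : (s + 1) * M + 2 * H < t) : ∃ col : (Fin n → Fin t) → Fin 2, Free col := by
  classical
  obtain ⟨A, hA⟩ := spread (Ω := Fin M → Fin (s + 1)) (H := H) (t := t)
    (I := {g : Fin M → Fin (s + 1) → Bool // ∀ j c, ∃ b, g j b ≠ c}) (fun g x j => g.1 j (x j))
    (fun g Z hZ => by
      rw [Fintype.card_fun, Fintype.card_fin, Fintype.card_fin]
      refine le_trans (Nat.mul_le_mul_left _ ?_) h1
      refine (card_le_card (t := Z.biUnion fun z => Fintype.piFinset fun j => {b | g.1 j b = z j})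
        fun x hx => mem_biUnion.2 ⟨_, (mem_filter.1 hx).2, by simp⟩).trans (card_biUnion_le.trans
          ((sum_le_card_nsmul _ _ (s ^ M) fun z _ => ?_).trans (Nat.mul_le_mul_right _ hZ.le)))
      rw [Fintype.card_piFinset]
      refine (prod_le_pow_card _ _ s fun j _ => ?_).trans_eq (by simp)
      refine Nat.le_of_lt_succ ((card_lt_card (ssubset_univ_iff.2 fun h4 => ?_)).trans_eq (by simp))
      obtain ⟨b, hb⟩ := g.2 j (z j)
      exact hb (mem_filter.1 (eq_univ_iff_forall.1 h4 b)).2) (by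
      refine (Nat.mul_le_mul_right _ (Fintype.card_subtype_le _)).trans_lt ?_
      simp only [Fintype.card_fun, Fintype.card_bool, Fintype.card_fin]
      rw [show 4 = 2 ^ 2 from rfl, ← pow_mul, ← pow_mul, ← pow_add]
      exact Nat.pow_lt_pow_right one_lt_two h3)
  obtain ⟨κ, hκ⟩ := two_col (X := Fin M → C) (H := H)
    (I := {f : Fin M → Fin (s + 1) → C // ∀ j, ∃ b, f j b ≠ f j 0})
    (fun f => univ.image fun a j => f.1 j (A a j)) (fun f => by
      refine (hA ⟨fun j b => decide (f.1 j b = f.1 j 0), fun j c => ?_⟩).trans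
        (le_trans (le_of_eq ?_) (card_image_le (f := fun y j => decide (y j = f.1 j 0))))
      · obtain ⟨b, hb⟩ := f.2 j
        cases c
        · exact ⟨0, by simp⟩
        · exact ⟨b, by simpa⟩
      · rw [image_image]
        rfl)
    ((Nat.mul_le_mul_left _ ((Fintype.card_subtype_le _).trans_eq (by simp))).trans_lt h2)
  refine ⟨fun w => κ fun j => φ fun i => A (w i) j, fun σ w => congrArg κ (funext fun j =>
    hφ.1 σ fun i => A (w i) j), fun l ⟨c, hc⟩ => ?_⟩
  obtain ⟨x, hx, hx'⟩ := hκ ⟨fun j b => φ (l.map (A · j) b), fun j => by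
    by_contra! h4
    exact hφ.2 _ ⟨_, h4⟩⟩ c
  obtain ⟨a, -, rfl⟩ := mem_image.1 hx
  refine hx' (Eq.trans (congrArg κ (funext fun j => congrArg φ ?_)) (hc a))
  exact Line.map_apply (A · j) l a

theorem prod_ge {D m M : ℕ} (hm : 0 < m) (hM : m ≤ M) (z : ℤ) (hz : ∀ k : Fin D, z ≠ m * k) :
    1 ≤ (M : ℝ) ^ 4 * ∏ k : Fin D, ((z - m * k) / m : ℝ) ^ 2 := by
  have h0 : (0 : ℝ) < m := by exact_mod_cast hm
  have h1 : (1 : ℝ) ≤ M := by exact_mod_cast hm.trans_le hM
  set T : Finset (Fin D) := {k | (k : ℤ) = z / m ∨ (k : ℤ) = z / m + 1}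
  have h2 : #T ≤ 2 := (card_le_card_of_injOn (s := T) (t := ({z / m, z / m + 1} : Finset ℤ))
    (fun k => ((k : ℕ) : ℤ)) (fun k hk => by simpa [T] using hk)
    fun a _ b _ h => Fin.ext (Nat.cast_injective h)).trans card_le_two
  have h3 : ∀ (k : Fin D) (c : ℕ), (c : ℤ) ≤ |z - m * k| → (c : ℝ) ^ 2 ≤ (z - m * k) ^ 2 :=
    fun k c h => by
      rw [← sq_abs (z - m * k : ℝ)]
      gcongr
      exact_mod_cast h
  calc (1 : ℝ) ≤ (∏ k ∈ T, (M : ℝ) ^ 2 * ((z - m * k) / m : ℝ) ^ 2) *
        ∏ k ∈ Tᶜ, ((z - m * k) / m : ℝ) ^ 2 := by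
        refine one_le_mul_of_one_le_of_one_le (one_le_prod fun k _ => ?_) (one_le_prod fun k hk => ?_)
        · have := h3 k 1 (Int.one_le_abs (sub_ne_zero.2 (hz k)))
          rw [div_pow, ← mul_div_assoc, one_le_div (by positivity)]
          have h4 : (m : ℝ) ^ 2 ≤ M ^ 2 := by gcongr
          push_cast at this
          nlinarith [sq_nonneg (M : ℝ)]
        · rw [div_pow, one_le_div (by positivity)]
          refine h3 k m ?_
          simp only [T, mem_compl, mem_filter, mem_univ, true_and, not_or] at hk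
          have h4 := Int.mul_ediv_add_emod z m
          have h5 := Int.emod_nonneg z (b := m) (by omega)
          have h6 := Int.emod_lt_of_pos z (b := m) (by omega)
          rcases lt_or_gt_of_ne hk.1 with h | h
          · exact le_abs.2 (.inl (by nlinarith))
          · exact le_abs.2 (.inr (by nlinarith [show z / m + 2 ≤ k by omega]))
    _ ≤ _ := by
        rw [prod_mul_distrib, mul_assoc, prod_mul_prod_compl, prod_const, ← pow_mul]
        gcongr
        omega

theorem many' {e M K n : ℕ} (he : 2 ≤ e) (hM : (4 * M : ℝ) ≤ Real.exp (e / 3))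
    (hK : Fintype.card (Fin (6 * e) → Res M) < 2 ^ K) (hn : n < Nat.lcmUpto M) :
    ∃ φ : (Fin n → Fin (6 * e)) →
      Fin K × (Fin (6 * e) → ZMod (6 * e * M ^ 5 * (6 * e) ^ (6 * e) + 6 * e)), Free φ := by
  obtain ⟨g, hg⟩ := shifts hM hK
  choose κ hκ using hg
  let cast : (Fin (6 * e) → ℕ) → Fin (6 * e) → Res M := fun x i q => x i
  let r : Fin K → Fin M → ℕ := fun a q =>
    ((n : ZMod (q + 1)) + ∑ i, g a i q).val + (q + 1) * ((2 * e * (q + 1) - 3 * e) / (q + 1))
  let G : Fin K → (Fin (6 * e) → ℕ) → ℝ := fun a x => ∑ q, ∏ k : Fin (2 * e + 1),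
    ((((sig (cast x + g a) q : ℤ) - r a q : ℤ) - ((q : ℕ) + 1 : ℕ) * k) / ((q : ℕ) + 1 : ℕ) : ℝ) ^ 2
  have hG : ∀ a, Dec (G a) := fun a => by
    convert dec_sum fun q : Fin M => dec_prod (ι := Fin (2 * e + 1) × Fin 2) (s := 6 * e)
      (by simp; omega) (fun m => -((r a q + (q + 1) * m.1) / (q + 1) : ℝ))
      fun i (z : ℕ) => (((z : ZMod (q + 1)) + g a i q).val : ℕ) / (q + 1) using 1
    · rfl
    funext x
    simp [G, sig, cast, Fintype.prod_prod_type, neg_add_eq_sub, ← sum_div, ← sub_div, sub_sub,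
      -prod_div_distrib]
  choose S hS hS' using hG
  have hsig : ∀ a x (q : Fin M), (sig (cast x + g a) q : ZMod (q + 1)) =
      (∑ i, x i : ℕ) + ∑ i, g a i q := fun a x q => by
    simp [sig, cast, sum_add_distrib]
  have h0 : ∀ x, ∑ i, x i = n → G (κ (cast x)) x = 0 := fun x hx => sum_eq_zero fun q _ => by
    obtain ⟨h1, h2⟩ := hκ (cast x) q
    have h3 := congrArg ZMod.val (hsig (κ (cast x)) x q)
    rw [ZMod.val_natCast, hx] at h3
    set σ := sig (cast x + g (κ (cast x))) q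
    have h4 := Nat.div_le_div_right (c := q + 1) h1
    have h5 : σ / (q + 1) ≤ (2 * e * (q + 1) - 3 * e) / (q + 1) + 2 * e := by
      rw [← Nat.add_mul_div_right _ _ (Nat.succ_pos _)]
      refine Nat.div_le_div_right ?_
      have : 4 * e * (q + 1) = 2 * e * (q + 1) + 2 * e * (q + 1) := by ring
      rw [Nat.succ_eq_add_one]
      omega
    refine prod_eq_zero (mem_univ ⟨σ / (q + 1) - (2 * e * (q + 1) - 3 * e) / (q + 1), by omega⟩) ?_
    rw [sq_eq_zero_iff, div_eq_zero_iff, Int.cast_sub, sub_sub, sub_eq_zero]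
    left
    norm_cast
    simp only [r]
    rw [add_assoc, ← mul_add, Nat.add_sub_cancel' h4, ← h3, Nat.mod_add_div]
  have h1 : ∀ a x, 0 ≤ G a x ∧ G a x ≤ M * (6 * e) ^ (6 * e) := fun a x => by
    refine ⟨by positivity, (sum_le_card_nsmul _ _ ((6 * e : ℝ) ^ (6 * e)) fun q _ => ?_).trans_eq
      (by simp)⟩
    have h4 : sig (cast x + g a) q ≤ 6 * e * (q + 1) :=
      (sum_le_card_nsmul _ _ ((q : ℕ) + 1) fun i _ => (ZMod.val_lt _).le).trans_eq (by simp)
    refine (prod_le_prod (fun _ _ => sq_nonneg _) (g := fun _ => (6 * e : ℝ) ^ 2)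
      fun k _ => ?_).trans ?_
    · have h5 : r a q + (q + 1) * k ≤ 6 * e * (q + 1) := by
        have h6 := ZMod.val_lt ((n : ZMod (q + 1)) + ∑ i, g a i q)
        have h7 := Nat.mul_div_le (2 * e * (q + 1) - 3 * e) (q + 1)
        have h8 := Nat.mul_le_mul_left (q + 1) (Nat.le_of_lt_succ k.2)
        have h11 := Nat.sub_le (2 * e * (q + 1)) (3 * e)
        simp only [r]
        nlinarith
      rw [div_pow, div_le_iff₀ (by positivity), ← mul_pow]
      rw [← Nat.cast_le (α := ℝ)] at h4 h5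
      push_cast at h4 h5 ⊢
      refine sq_le_sq' ?_ ?_
      · linarith [Nat.cast_nonneg (α := ℝ) (sig (cast x + g a) q)]
      · nlinarith [Nat.cast_nonneg (α := ℝ) (r a q), Nat.cast_nonneg (α := ℝ) (k : ℕ),
          Nat.cast_nonneg (α := ℝ) (q : ℕ)]
    · rw [prod_const, card_univ, Fintype.card_fin, ← pow_mul]
      refine pow_le_pow_right₀ ?_ (by omega)
      exact_mod_cast Nat.mul_pos (by omega) (by omega)
  have h2 : ∀ a x, (M : ℝ) ^ 4 * G a x < 1 → ∀ q : Fin M,
      ((∑ i, x i : ℕ) : ZMod (q + 1)) = n := fun a x hx q => by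
    by_contra h3
    refine hx.not_ge ((prod_ge (D := 2 * e + 1) (Nat.succ_pos q) q.2
      ((sig (cast x + g a) q : ℤ) - r a q) fun k hk => h3 ?_).trans (mul_le_mul_of_nonneg_left ?_ (by positivity)))
    swap
    · simp only [G]
      exact single_le_sum (f := fun q : Fin M => ∏ k : Fin (2 * e + 1), ((((sig (cast x + g a) q : ℤ) -
        r a q : ℤ) - ((q : ℕ) + 1 : ℕ) * k) / ((q : ℕ) + 1 : ℕ) : ℝ) ^ 2) (fun _ _ => by positivity)
        (mem_univ q)
    have h5 := hsig a x q
    rw [sub_eq_iff_eq_add] at hk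
    norm_cast at hk
    rw [hk] at h5
    simpa [r] using h5.symm
  let cnt : (Fin n → Fin (6 * e)) → Fin (6 * e) → ℕ := fun w i => ∑ j, if w j = i then 1 else 0
  have hcnt : ∀ w, ∑ i, cnt w i = n := fun w => by
    rw [sum_comm]
    simp
  refine ⟨fun w => (κ (cast (cnt w)),
    fun i => (⌊6 * e * M ^ 4 * S (κ (cast (cnt w))) i (cnt w)⌋ : ℤ)), fun σ w => ?_,
    fun l ⟨⟨a, c⟩, hc⟩ => ?_⟩
  · have : cnt (w ∘ σ) = cnt w :=
      funext fun i => Equiv.sum_comp σ fun j => if w j = i then 1 else 0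
    simp only [this]
  simp only [Prod.mk.injEq] at hc
  let v : Fin (6 * e) → ℕ := fun i => ∑ j, if l.idxFun j = some i then 1 else 0
  let o : Fin (6 * e) := ⟨0, by omega⟩
  have h3 : ∀ b i, ((⌊6 * e * M ^ 4 * S a i (cnt (l b))⌋ : ℤ) : ZMod _) = c i := fun b i => by
    rw [← (hc b).1]
    exact congrFun (hc b).2 i
  have h4 : ∀ i, S a i (cnt (l i)) = S a i v := fun i =>
    hS a i _ _ fun j hj => sum_congr rfl fun m _ => by
      rw [Line.coe_apply]
      cases l.idxFun m <;> simp [hj.symm]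
  have h5 : ∑ i, S a i (cnt (l o)) = 0 := by
    rw [← hS', ← (hc o).1, h0 _ (hcnt _)]
  set z : ℤ := ∑ i, (⌊6 * e * M ^ 4 * S a i v⌋ - ⌊6 * e * M ^ 4 * S a i (cnt (l o))⌋) with hz
  have h6 : |6 * e * M ^ 4 * G a v - z| < (6 * e : ℝ) := by
    rw [hS', ← sub_zero (∑ i, S a i v), ← h5, ← sum_sub_distrib, mul_sum, hz, Int.cast_sum,
      ← sum_sub_distrib]
    refine (abs_sum_le_sum_abs _ _).trans_lt ((sum_lt_sum_of_nonempty (g := fun _ => (1 : ℝ))
      ⟨o, mem_univ _⟩ fun i _ => ?_).trans_eq (by simp))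
    have := Int.floor_le (6 * e * M ^ 4 * S a i v)
    have := Int.lt_floor_add_one (6 * e * M ^ 4 * S a i v)
    have := Int.floor_le (6 * e * M ^ 4 * S a i (cnt (l o)))
    have := Int.lt_floor_add_one (6 * e * M ^ 4 * S a i (cnt (l o)))
    rw [abs_lt, Int.cast_sub]
    constructor <;> linarith
  have he' : (0 : ℝ) < e := by exact_mod_cast (by omega : 0 < e)
  have h7 : z = 0 := by
    refine Int.eq_zero_of_abs_lt_dvd ((ZMod.intCast_zmod_eq_zero_iff_dvd _
      (6 * e * M ^ 5 * (6 * e) ^ (6 * e) + 6 * e)).1 ?_) ?_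
    · rw [hz, Int.cast_sum]
      exact sum_eq_zero fun i _ => by rw [Int.cast_sub, ← h4, h3, h3, sub_self]
    · rw [← Int.cast_lt (R := ℝ)]
      push_cast
      obtain ⟨h8, h9⟩ := h1 a v
      have h10 : (0 : ℝ) ≤ 6 * e * M ^ 4 := by positivity
      have h11 := mul_le_mul_of_nonneg_left h9 h10
      have h12 := mul_nonneg h10 h8
      have h13 := h12.trans h11
      rw [abs_lt] at h6 ⊢
      constructor <;> nlinarith
  have h8 : (M : ℝ) ^ 4 * G a v < 1 := by
    have := (abs_lt.1 h6).2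
    rw [h7, Int.cast_zero, sub_zero, mul_assoc] at this
    nlinarith
  have h9 : ∑ i, v i < n := by
    obtain ⟨j, hj⟩ := l.proper
    rw [sum_comm]
    refine (sum_lt_sum (g := fun _ => 1) (fun m _ => ?_) ⟨j, mem_univ _, by simp [hj]⟩).trans_eq
      (by simp)
    cases l.idxFun m <;> simp
  refine (Nat.le_of_dvd (Nat.sub_pos_of_lt h9) (Finset.lcm_dvd (s := Icc 1 M) (f := id)
    fun q hq => ?_)).not_gt ((Nat.sub_le _ _).trans_lt hn)
  obtain ⟨h10, h11⟩ := mem_Icc.1 hq
  obtain ⟨q, rfl⟩ : ∃ q', q = q' + 1 := ⟨q - 1, by omega⟩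
  exact (Nat.modEq_iff_dvd' h9.le).1 ((ZMod.natCast_eq_natCast_iff _ _ _).1 (h2 a v h8 ⟨q, h11⟩))

end Pool.Agent.Lib.MP_176643_co
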