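import Mathlib

/-! Stepanov's bound for the number of `x` modulo `p` with `f(x)^((p-1)/2) = a`. -/

namespace Pool.Agent.Lib.MP_176643_co

open Polynomial Finset

section
variable {F : Type} [Field F]

/-- the coefficient of `f^(n-k)` in the `k`-th derivative of `f^n u` -/
noncomputable def Dk (f : F[X]) (n : ℕ) : ℕ → F[X] →ₗ[F] F[X]
  | 0 => LinearMap.id
  | k + 1 => (LinearMap.mulLeft F (((n - k : ℕ) : F[X]) * derivative f) +
      LinearMap.mulLeft F f ∘ₗ derivative) ∘ₗ Dk f n k

theorem Dk_succ (f : F[X]) (n k : ℕ) (u : F[X]) : Dk f n (k + 1) u =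
    ((n - k : ℕ) : F[X]) * derivative f * Dk f n k u + f * derivative (Dk f n k u) := rfl

theorem iter_der (f v : F[X]) (hv : derivative v = 0) (n : ℕ) (u : F[X]) :
    ∀ k ≤ n, derivative^[k] (f ^ n * u * v) = f ^ (n - k) * Dk f n k u * v
  | 0, _ => rfl
  | k + 1, hk => by
    obtain ⟨e, he⟩ : ∃ e, n - k = e + 1 := ⟨n - k - 1, by omega⟩
    rw [Function.iterate_succ_apply', iter_der f v hv n u k (by omega), Dk_succ,
      show n - (k + 1) = e by omega, he]
    simp only [derivative_mul, hv, derivative_pow_succ, mul_zero, add_zero, map_add, map_natCast,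
      map_one]
    push_cast
    ring

theorem Dk_deg (f : F[X]) (n : ℕ) (u : F[X]) :
    ∀ k, (Dk f n k u).natDegree ≤ u.natDegree + k * f.natDegree
  | 0 => by simp [Dk]
  | k + 1 => by
    have ih := Dk_deg f n u k
    have h1 : (derivative f).natDegree ≤ f.natDegree :=
      (natDegree_derivative_le f).trans (Nat.sub_le _ _)
    have h2 : (derivative (Dk f n k u)).natDegree ≤ (Dk f n k u).natDegree :=
      (natDegree_derivative_le _).trans (Nat.sub_le _ _)
    rw [Dk_succ]
    refine (natDegree_add_le _ _).trans (max_le (natDegree_mul_le.trans ?_)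
      (natDegree_mul_le.trans ?_))
    · have h3 : (((n - k : ℕ) : F[X]) * derivative f).natDegree ≤ f.natDegree :=
        natDegree_mul_le.trans (by rw [natDegree_natCast]; omega)
      rw [add_mul]
      omega
    · rw [add_mul]
      omega

theorem pair_zero {p h d : ℕ} [Fact p.Prime] [CharP F p] (hp : p = 2 * h + 1) {f r s : F[X]}
    (h0 : f.coeff 0 ≠ 0) {e : F} (he : Odd (f.rootMultiplicity e))
    (hd : 2 * d + f.natDegree < p) (hr : r.natDegree ≤ d) (hs : s.natDegree ≤ d)
    (hX : X ^ p ∣ r + f ^ h * s) : r = 0 ∧ s = 0 := by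
  have hf : f ≠ 0 := by rintro rfl; simp at h0
  have h1 : f ^ p = X ^ p * f.divX ^ p + C (f.coeff 0 ^ p) := by
    conv_lhs => rw [← X_mul_divX_add f]
    rw [add_pow_char, mul_pow, C_pow]
  have h2 : X ^ p ∣ r ^ 2 * f - C (f.coeff 0 ^ p) * s ^ 2 := by
    have : r ^ 2 * f - C (f.coeff 0 ^ p) * s ^ 2 =
        (r + f ^ h * s) * ((r - f ^ h * s) * f) + X ^ p * (f.divX ^ p * s ^ 2) := by
      have h3 : f ^ p = f ^ h * f ^ h * f := by rw [hp]; ring
      linear_combination s ^ 2 * h1 - s ^ 2 * h3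
    rw [this]
    exact dvd_add (hX.mul_right _) (dvd_mul_right _ _)
  have h3 : r ^ 2 * f = C (f.coeff 0 ^ p) * s ^ 2 := by
    refine sub_eq_zero.1 (eq_zero_of_dvd_of_natDegree_lt h2 ?_)
    rw [natDegree_X_pow]
    refine (natDegree_sub_le _ _).trans_lt (max_lt (natDegree_mul_le.trans_lt ?_)
      ((natDegree_C_mul_le _ _).trans_lt ?_))
    · have := natDegree_pow_le (p := r) (n := 2)
      omega
    · have := natDegree_pow_le (p := s) (n := 2)
      omega
  have hc : C (f.coeff 0 ^ p) ≠ 0 := C_ne_zero.2 (pow_ne_zero _ h0)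
  have hr0 : r = 0 := by
    by_contra hr0
    have h4 : r ^ 2 * f ≠ 0 := mul_ne_zero (pow_ne_zero _ hr0) hf
    have hs0 : s ≠ 0 := by
      rintro rfl
      simp [h3] at h4
    have h5 := congrArg (rootMultiplicity e) h3
    rw [rootMultiplicity_mul h4, rootMultiplicity_mul (h3 ▸ h4), sq, sq,
      rootMultiplicity_mul (mul_ne_zero hr0 hr0), rootMultiplicity_mul (mul_ne_zero hs0 hs0),
      rootMultiplicity_C] at h5
    obtain ⟨k, hk⟩ := he
    omega
  refine ⟨hr0, ?_⟩
  rw [hr0] at h3
  simpa [h0] using h3.symm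

theorem all_zero {p J : ℕ} (u : Fin J → F[X]) (hu : ∀ j, X ^ p ∣ u j → u j = 0)
    (h : ∑ j, u j * X ^ (p * j) = 0) (j : Fin J) : u j = 0 := by
  induction j using WellFoundedLT.induction with
  | ind j ih =>
    refine hu j ?_
    have h1 : X ^ (p * j) * X ^ p ∣ ∑ i ∈ univ.erase j, u i * X ^ (p * i) := by
      refine dvd_sum fun i hi => ?_
      rcases lt_or_gt_of_ne (ne_of_mem_erase hi) with h2 | h2
      · simp [ih i h2]
      · rw [← pow_add, ← mul_add_one]
        exact Dvd.dvd.mul_left (pow_dvd_pow _ (Nat.mul_le_mul_left _ h2)) _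
    rw [← add_sum_erase _ _ (mem_univ j), add_eq_zero_iff_eq_neg'] at h
    rw [h, dvd_neg, mul_comm (u j)] at h1
    exact (mul_dvd_mul_iff_left (pow_ne_zero _ X_ne_zero)).1 h1

end

theorem stepanov {p h d l J : ℕ} [Fact p.Prime] (hp : p = 2 * h + 1) {f : (ZMod p)[X]}
    (h0 : f.coeff 0 ≠ 0) {e : ZMod p} (he : Odd (f.rootMultiplicity e))
    (hd : 2 * d + f.natDegree < p) (hl : l ≤ p)
    (hJ : l * (d + l * f.natDegree + J + 1) < 2 * (J + 1) * (d + 1)) (a : ZMod p) :
    #{x : ZMod p | f.eval x ^ h = a} * l ≤ (l + h) * f.natDegree + d + p * J := by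
  have hf : f ≠ 0 := by rintro rfl; simp at h0
  let V := degreeLT (ZMod p) (d + 1)
  have hV : ∀ u : V, (u : (ZMod p)[X]).natDegree ≤ d := fun u =>
    natDegree_le_iff_degree_le.2 (Order.le_of_lt_succ (by
      have := mem_degreeLT.1 u.2
      exact_mod_cast this))
  let T : Fin l → (Fin (J + 1) → V × V) →ₗ[ZMod p] (ZMod p)[X] := fun k =>
    ∑ j : Fin (J + 1), LinearMap.mulRight (ZMod p) (X ^ (j : ℕ)) ∘ₗ
      (Dk f l k ∘ₗ V.subtype ∘ₗ LinearMap.fst _ _ _ +
        a • Dk f (l + h) k ∘ₗ V.subtype ∘ₗ LinearMap.snd _ _ _) ∘ₗ LinearMap.proj j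
  have hT : ∀ k w, T k w = ∑ j : Fin (J + 1),
      (Dk f l k (w j).1 + a • Dk f (l + h) k (w j).2) * X ^ (j : ℕ) := fun k w => by
    simp [T]
  have hT' : ∀ k w, T k w ∈ degreeLT (ZMod p) (d + l * f.natDegree + J + 1) := fun k w => by
    rw [hT]
    refine sum_mem fun j _ => mem_degreeLT.2 (degree_le_natDegree.trans_lt ?_)
    rw [Nat.cast_lt]
    have h1 := Dk_deg f l (w j).1 k
    have h2 := Dk_deg f (l + h) (w j).2 k
    have h3 := hV (w j).1
    have h4 := hV (w j).2
    have h5 := Nat.mul_le_mul_right f.natDegree k.2.le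
    have h6 := natDegree_smul_le a (Dk f (l + h) k (w j).2)
    have h7 := natDegree_add_le (Dk f l k (w j).1) (a • Dk f (l + h) k (w j).2)
    have h8 := j.2
    refine natDegree_mul_le.trans_lt ?_
    rw [natDegree_X_pow]
    omega
  obtain ⟨w, hw, hw0⟩ := (Submodule.ne_bot_iff _).1 (LinearMap.ker_ne_bot_of_finrank_lt
    (f := LinearMap.pi fun k => (T k).codRestrict _ (hT' k)) (by
      simp only [V, Module.finrank_pi_fintype, Module.finrank_prod, sum_const,
        (degreeLTEquiv (ZMod p) _).finrank_eq, Module.finrank_self,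
        card_univ, Fintype.card_fin, smul_eq_mul]
      linarith))
  have hw1 : ∀ k, T k w = 0 := fun k => congrArg Subtype.val (congrFun (LinearMap.mem_ker.1 hw) k)
  set R : (ZMod p)[X] := ∑ j : Fin (J + 1), (f ^ l * ((w j).1 : (ZMod p)[X]) * X ^ (p * j) +
    f ^ (l + h) * ((w j).2 : (ZMod p)[X]) * X ^ (p * j)) with hR
  have hR0 : R ≠ 0 := fun h1 => hw0 (funext fun j => by
    have h2 : f ^ l * ∑ j : Fin (J + 1), (((w j).1 : (ZMod p)[X]) + f ^ h * ((w j).2 : (ZMod p)[X])) *
        X ^ (p * j) = 0 := by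
      rw [← h1, hR, mul_sum]
      exact sum_congr rfl fun j _ => by ring
    have h3 := fun j => pair_zero hp h0 he hd (hV (w j).1) (hV (w j).2)
    have h4 := all_zero (fun j => ((w j).1 : (ZMod p)[X]) + f ^ h * ((w j).2 : (ZMod p)[X]))
      (fun j hj => by simp [(h3 j hj).1, (h3 j hj).2])
      ((mul_eq_zero.1 h2).resolve_left (pow_ne_zero _ hf)) j
    have h5 := h3 j (by rw [h4]; exact dvd_zero _)
    exact Prod.ext (Subtype.ext h5.1) (Subtype.ext h5.2))
  have hdeg : R.natDegree ≤ (l + h) * f.natDegree + d + p * J := by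
    refine natDegree_sum_le_of_forall_le _ _ fun j _ => ?_
    have h1 := Nat.mul_le_mul_left p (Nat.le_of_lt_succ j.2)
    have h2 : ∀ (n : ℕ) (u : V), n ≤ l + h →
        (f ^ n * (u : (ZMod p)[X]) * X ^ (p * j)).natDegree ≤ (l + h) * f.natDegree + d + p * J := fun n u hn => by
      have h3 := hV u
      have h4 := natDegree_pow_le (p := f) (n := n)
      have h5 := Nat.mul_le_mul_right f.natDegree hn
      have h6 := natDegree_mul_le (p := f ^ n) (q := u)
      refine natDegree_mul_le.trans ?_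
      rw [natDegree_X_pow]
      omega
    exact (natDegree_add_le _ _).trans (max_le (h2 _ _ (by omega)) (h2 _ _ le_rfl))
  have hmul : ∀ x : ZMod p, f.eval x ^ h = a → l ≤ R.rootMultiplicity x := fun x hx => by
    rcases l with _ | l
    · exact Nat.zero_le _
    refine lt_rootMultiplicity_of_isRoot_iterate_derivative_of_mem_nonZeroDivisors hR0
      (fun k hk => ?_) (mem_nonZeroDivisors_of_ne_zero ?_)
    · have hv : ∀ j : ℕ, derivative (X ^ (p * j) : (ZMod p)[X]) = 0 := fun j => by
        simp [derivative_X_pow]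
      have h1 := congrArg (eval x) ((hT ⟨k, by omega⟩ w).symm.trans (hw1 _))
      rw [IsRoot, hR, iterate_derivative_sum, ← mul_zero (f.eval x ^ (l + 1 - k)), ← eval_zero (x := x),
        ← h1, eval_finsetSum, eval_finsetSum, mul_sum]
      refine sum_congr rfl fun j _ => ?_
      rw [iterate_map_add, iter_der f _ (hv j) _ _ k (by omega), iter_der f _ (hv j) _ _ k (by omega),
        show l + 1 + h - k = l + 1 - k + h by omega]
      simp only [eval_add, eval_mul, eval_pow, eval_X, pow_mul, ZMod.pow_card, eval_smul, pow_add, hx,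
        smul_eq_mul]
      ring
    · rw [Ne, ZMod.natCast_eq_zero_iff, (Fact.out : p.Prime).dvd_factorial]
      omega
  refine le_trans ?_ ((card_roots' R).trans hdeg)
  rw [← Multiset.toFinset_sum_count_eq, ← smul_eq_mul]
  rcases Nat.eq_zero_or_pos l with rfl | hl0
  · simp
  refine (card_nsmul_le_sum _ (fun x => R.roots.count x) _ fun x hx => ?_).trans
    (sum_le_sum_of_subset fun x hx => ?_)
  · rw [count_roots]
    exact hmul x (mem_filter.1 hx).2
  · rw [Multiset.mem_toFinset, ← Multiset.one_le_count_iff_mem, count_roots]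
    exact hl0.trans_le (hmul x (mem_filter.1 hx).2)

end Pool.Agent.Lib.MP_176643_co
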